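import Pool.Agent.H99DD.Final

/-!
# Sets in general position in which no point determines `n - n ^ (1 - δ)` distances
-/

set_option autoImplicit false

/-- For infinitely many `n` there is an `n`-point set in general position with the two-per-circle
condition in which every point determines at most `n - n exp (-74 √(log n))` distances. -/
theorem Pool.Agent.Results.MP_a69ea3_co.ErrorTermLimit.result :
    ∀ N : ℕ, ∃ n : ℕ, N ≤ n ∧ ∃ x : Fin n → EuclideanSpace ℝ (Fin 2),
      Function.Injective x ∧
      (∀ i j k : Fin n, i ≠ j → i ≠ k → j ≠ k →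
        ¬ Collinear ℝ ({x i, x j, x k} : Set (EuclideanSpace ℝ (Fin 2)))) ∧
      (∀ i j k l : Fin n, i ≠ j → i ≠ k → i ≠ l → j ≠ k → j ≠ l → k ≠ l →
        ¬ EuclideanGeometry.Cospherical
          ({x i, x j, x k, x l} : Set (EuclideanSpace ℝ (Fin 2)))) ∧
      (∀ i : Fin n, ∀ r : ℝ,
        (Finset.univ.filter (fun j : Fin n => j ≠ i ∧ dist (x i) (x j) = r)).card ≤ 2) ∧
      ∀ i : Fin n,
        (((Finset.univ.erase i).image (fun j : Fin n => dist (x i) (x j))).card : ℝ) ≤
          n - n * Real.exp (-(74 * √(Real.log n))) :=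
  Pool.Agent.H99DD.main
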